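import Pool.Agent.H.MP_143e72_lc.C

namespace Pool.Agent.Results.MP_143e72_lc.Complete

open Pool.Agent.Lib.CX Pool.Agent.H.MP_143e72_lc SimpleGraph

theorem result :
    (NPComplete fun a : {a : Gr × Gr // (pathGraph 5).Free a.1.G ∧ (pathGraph 5).Free a.2.G} => a.1.2.G ⊑ a.1.1.G) ∧
    NPComplete fun a : {a : Gr × Gr // (pathGraph 5 ⊕g pathGraph 5).Free a.1.G ∧
      (pathGraph 5 ⊕g pathGraph 5).Free a.2.G} => a.1.2.G ⊑ a.1.1.G :=
  ⟨complete _ .rfl, complete _ ⟨Embedding.sumInl.toCopy⟩⟩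

end Pool.Agent.Results.MP_143e72_lc.Complete
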